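import Pool.Agent.Lib.MP_688fd0_co.TF.Iface4
import Pool.Agent.Lib.MP_688fd0_co.TF.H94.Rhof
import Pool.Agent.Lib.MP_688fd0_co.TE.H15.Linfg

/-!
# Theorem F, module LOADSF: the loads of the transport laws in the abstract model
-/

namespace Pool.Agent.Lib.MP_688fd0_co.TF.H78

open Pool.Agent.Lib.MP_688fd0_co.TE

universe u v

section

variable {V : Type u} {Val : Type v} [Fintype V] [Fintype Val] [DecidableEq V] {a : ℕ}

theorem lw_nonneg (M : LM V Val a) (ω : Fld a V Val) (j : ℕ) (u : V) (e : Val) :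
    0 ≤ M.lw ω j u e :=
  mul_nonneg (M.hk0 j u e) (div_nonneg (ind_nonneg _) (M.hP0 u e))

theorem lw_le (M : LM V Val a) (ω : Fld a V Val) (j : ℕ) (u : V) (e : Val) :
    M.lw ω j u e ≤ M.H0 := by
  unfold LM.lw
  have hH : 0 ≤ M.H0 := le_trans zero_le_one M.hH0
  rcases eq_or_lt_of_le (M.hP0 u e) with h | h
  · rw [← h, div_zero, mul_zero]; exact hH
  · have h1 : ind (val ω j u = some e) / M.P u e ≤ 1 / M.P u e :=
      div_le_div_of_nonneg_right (ind_le_one _) h.le
    calc M.kap j u e * (ind (val ω j u = some e) / M.P u e)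
        ≤ M.kap j u e * (1 / M.P u e) := mul_le_mul_of_nonneg_left h1 (M.hk0 j u e)
      _ ≤ (M.H0 * M.P u e) * (1 / M.P u e) :=
          mul_le_mul_of_nonneg_right (M.hkH j u e) (by positivity)
      _ = M.H0 := by field_simp

theorem Fn_nonneg (M : LM V Val a) (ω : Fld a V Val) (i n : ℕ) (F : V → ℝ) (hF : ∀ v, 0 ≤ F v)
    (v : V) : 0 ≤ M.Fn ω i F n v :=
  ((TE.H15.linfg V Val a M ω).1 i n F F hF (fun _ => le_rfl) v).1

theorem Gn_nonneg (M : LM V Val a) (ω : Fld a V Val) (i n : ℕ) (F : V → ℝ) (hF : ∀ v, 0 ≤ F v)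
    (v : V) : 0 ≤ M.Gn ω F n i v :=
  ((TE.H15.linfg V Val a M ω).2.2.2.1 i n F F hF (fun _ => le_rfl) v).1

theorem lx_nonneg (M : LM V Val a) (jm : ℕ) (ω : Fld a V Val) (x : V) (j j' : ℕ) (u w : V) :
    0 ≤ M.lx jm ω x j j' u w :=
  mul_nonneg (Fn_nonneg M ω 0 j _ (M.hC0 0 x) u)
    (Gn_nonneg M ω _ _ _ (fun v => TF.H94.kb_nonneg M jm x v) w)

theorem ly_nonneg (M : LM V Val a) (jm : ℕ) (ω : Fld a V Val) (y : V) (j j' : ℕ) (u w : V) :
    0 ≤ M.ly jm ω y j j' u w := by
  refine mul_nonneg (Fn_nonneg M ω _ _ _ (fun u' => ?_) u)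
    (Gn_nonneg M ω _ _ _ (fun v => M.hC0 a v y) w)
  refine Finset.sum_nonneg fun u _ => Finset.sum_nonneg fun e _ => ?_
  exact mul_nonneg (mul_nonneg (lw_nonneg M ω _ _ _) (TF.H94.kc_nonneg M jm y _)) (M.hC0 _ _ _)

/-- bound of one marginal -/
theorem one_bound {q b1 lam H0 L K : ℝ} (hq : 0 < q) (hb1 : 0 < b1) (hlam : 0 < lam)
    (hL0 : 0 ≤ L) (hL : L ≤ H0) (hK : K ≤ 10 * q / b1) :
    12 * lam / q * L * K ≤ 120 * lam * H0 / b1 := by
  have h1 : 12 * lam / q * L * K ≤ 12 * lam / q * L * (10 * q / b1) :=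
    mul_le_mul_of_nonneg_left hK (by positivity)
  have h2 : 12 * lam / q * L * (10 * q / b1) ≤ 12 * lam / q * H0 * (10 * q / b1) := by
    apply mul_le_mul_of_nonneg_right _ (by positivity)
    exact mul_le_mul_of_nonneg_left hL (by positivity)
  have h3 : 12 * lam / q * H0 * (10 * q / b1) = 120 * lam * H0 / b1 := by
    field_simp
    ring
  linarith

/-- summation of the marginals -/
theorem two_bound {α β : Type u} [Fintype α] [Fintype β] {π S : α → β → ℝ} {B : α → ℝ}
    {p q lam H0 L Eq E : ℝ} (hp : 0 ≤ p) (hq : 0 < q) (hlam : 0 < lam) (hL0 : 0 ≤ L)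
    (hL : L ≤ H0) (hπ : ∀ x y, 0 ≤ π x y) (hrow : ∀ x, ∑ y, π x y ≤ p) (hB : ∀ x, 0 ≤ B x)
    (hBs : ∑ x, B x ≤ Eq) (hEq : Eq ≤ E * q)
    (hS : ∀ x y, π x y ≠ 0 → S x y ≤ 12 * lam / q * L * B x) :
    ∑ x, ∑ y, π x y * S x y ≤ p * (12 * lam * E * H0) := by
  have hc : 0 ≤ 12 * lam / q * L := by positivity
  have h1 : ∑ x, ∑ y, π x y * S x y ≤ ∑ x, p * (12 * lam / q * L * B x) := by
    apply Finset.sum_le_sum
    intro x _
    have h2 : ∑ y, π x y * S x y ≤ ∑ y, π x y * (12 * lam / q * L * B x) := by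
      apply Finset.sum_le_sum
      intro y _
      by_cases h0 : π x y = 0
      · rw [h0]; simp
      · exact mul_le_mul_of_nonneg_left (hS x y h0) (hπ x y)
    refine h2.trans ?_
    rw [← Finset.sum_mul]
    exact mul_le_mul_of_nonneg_right (hrow x) (mul_nonneg hc (hB x))
  refine h1.trans ?_
  rw [← Finset.mul_sum, ← Finset.mul_sum]
  apply mul_le_mul_of_nonneg_left _ hp
  have hB0 : 0 ≤ ∑ x, B x := Finset.sum_nonneg (fun x _ => hB x)
  have hEq0 : 0 ≤ E * q := hB0.trans (hBs.trans hEq)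
  calc 12 * lam / q * L * ∑ x, B x ≤ 12 * lam / q * L * (E * q) :=
        mul_le_mul_of_nonneg_left (hBs.trans hEq) hc
    _ ≤ 12 * lam / q * H0 * (E * q) := by
        apply mul_le_mul_of_nonneg_right _ hEq0
        exact mul_le_mul_of_nonneg_left hL (by positivity)
    _ = 12 * lam * E * H0 := by field_simp

end

theorem loadsf.{w1, w2} (hr : RLAWF_S.{w1, w2}) : LOADSF_S.{w1, w2} := by
  intro V Val _ _ _ a M jm X q b1 lam E T W ω tc PP hjm hX hq hb1 hlam hE hLD hLS hPP
  constructor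
  · intro x y hxy j s hj
    obtain ⟨h1, h2⟩ := hPP x y hxy
    obtain ⟨-, -, -, r1, r2, -⟩ := hr V Val a M jm lam q T W ω (tc x y) x y hjm hlam hq h1 h2
    rcases le_or_gt j jm with hjj | hjj
    · exact (r1 j s hjj).trans (one_bound hq hb1 hlam (lw_nonneg M _ _ _ _) (lw_le M _ _ _ _)
        ((hLS (tc x y)).x0 j j x s.1 (M.ex s.1 s.2) le_rfl (by omega) hjj))
    · exact (r2 j s hjj hj).trans (one_bound hq hb1 hlam (lw_nonneg M _ _ _ _) (lw_le M _ _ _ _)
        ((hLS (tc x y)).y0 j j y s.1 (M.ex s.1 s.2) hjj le_rfl (by omega) hj))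
  · intro π p hπ hπP hrow hcol t j s hj
    have hp : 0 ≤ p := le_trans (Finset.sum_nonneg (fun y _ => hπ s.1 y)) (hrow s.1)
    have hmain : ∀ x y, π x y ≠ 0 → ∀ Bd : ℝ, 0 ≤ Bd →
        ((3 / 4 : ℝ) * q ≤ M.Fm jm x y → M.Fm jm x y / 4 ≤ M.Zgm jm ω W lam t x y →
          sumL a (fun z => M.Rm jm ω W lam t x y z * ind (z[j]? = some s)) ≤ Bd) →
        ind (tc x y = t) *
          sumL a (fun z => M.Rm jm ω W lam t x y z * ind (z[j]? = some s)) ≤ Bd := by
      intro x y h0 Bd hBd hb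
      by_cases ht : tc x y = t
      · rw [ind_of ht, one_mul]
        obtain ⟨h1, h2⟩ := hPP x y (hπP x y h0)
        rw [ht] at h2
        exact hb h1 h2
      · rw [ind_not ht, zero_mul]; exact hBd
    rcases le_or_gt j jm with hjj | hjj
    · have hB : ∀ x, 0 ≤ M.lx jm (ω t) x j j s.1 (M.ex s.1 s.2) := fun x => lx_nonneg M _ _ _ _ _ _ _
      have hBs : ∑ x, M.lx jm (ω t) x j j s.1 (M.ex s.1 s.2) ≤ M.Eb jm X q j j := by
        have := (hLD t).x1 j j s.1 (M.ex s.1 s.2) le_rfl (by omega) hjj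
        simpa using this
      have := two_bound (π := π) (S := fun x y => ind (tc x y = t) *
          sumL a (fun z => M.Rm jm ω W lam t x y z * ind (z[j]? = some s))) (E := E) hp hq hlam
        (lw_nonneg M (ω t) j s.1 s.2) (lw_le M (ω t) j s.1 s.2) hπ hrow hB hBs (hE j j) (by
          intro x y h0
          refine hmain x y h0 _ (by
            have := lw_nonneg M (ω t) j s.1 s.2
            have := hB x
            positivity) ?_
          intro h1 h2
          exact (hr V Val a M jm lam q T W ω t x y hjm hlam hq h1 h2).2.2.2.1 j s hjj)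
      refine le_trans (le_of_eq ?_) this
      refine Finset.sum_congr rfl fun x _ => Finset.sum_congr rfl fun y _ => ?_
      ring
    · have hB : ∀ y, 0 ≤ M.ly jm (ω t) y j j s.1 (M.ex s.1 s.2) := fun y => ly_nonneg M _ _ _ _ _ _ _
      have hBs : ∑ y, M.ly jm (ω t) y j j s.1 (M.ex s.1 s.2) ≤ M.Eb jm X q j j := by
        have := (hLD t).y1 j j s.1 (M.ex s.1 s.2) hjj le_rfl (by omega) hj
        simpa using this
      have := two_bound (π := fun y x => π x y) (S := fun y x => ind (tc x y = t) *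
          sumL a (fun z => M.Rm jm ω W lam t x y z * ind (z[j]? = some s))) (E := E) hp hq hlam
        (lw_nonneg M (ω t) j s.1 s.2) (lw_le M (ω t) j s.1 s.2) (fun y x => hπ x y) hcol hB hBs
        (hE j j) (by
          intro y x h0
          refine hmain x y h0 _ (by
            have := lw_nonneg M (ω t) j s.1 s.2
            have := hB y
            positivity) ?_
          intro h1 h2
          exact (hr V Val a M jm lam q T W ω t x y hjm hlam hq h1 h2).2.2.2.2.1 j s hjj hj)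
      rw [Finset.sum_comm]
      refine le_trans (le_of_eq ?_) this
      refine Finset.sum_congr rfl fun y _ => Finset.sum_congr rfl fun x _ => ?_
      ring

end Pool.Agent.Lib.MP_688fd0_co.TF.H78
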